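import Pool.Agent.Q45.Res.Final

/-! MP_97ec3f_ag, Q2: a negative answer over every field with at least three elements.

For a free arrangement `A` in `K^4` the module `Ω¹(A)` is free of rank four, so the residue ideal
has at most four generators; the ideal of ten lines of `K^3` on no cubic cone needs five. -/

open MvPolynomial Q45.Res

namespace Pool.Agent.Results.MP_97ec3f_ag.FreeResidueIdeals

/-- Over every field with an element different from `0` and `1` there is a finite set `B` of
codimension two subspaces of `K^3` such that `K[W]/I(B)` is Cohen-Macaulay, and such that for every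
free arrangement `A` in `K^4`, every `H ∈ A`, every `S`-linear map `ρ : Ω¹(A) → S/(α_H)` (such as
the residue map) and every ring isomorphism `S/(α_H) ≃ K[W]`, the image `J` of `ρ` does not
correspond to `I(B)`. -/
theorem result {K : Type*} [Field K] (hK : ∃ c : K, c ≠ 0 ∧ c ≠ 1)
    (F : Type*) [Field F] [Algebra (MvPolynomial (Fin 4) K) F]
    [IsFractionRing (MvPolynomial (Fin 4) K) F] :
    ∃ B : Finset (Submodule K (Fin 3 → K)),
      (∀ X ∈ B, Module.finrank K X + 2 = 3) ∧
      IsCohenMacaulay (MvPolynomial (Fin 3) K ⧸ idealArr B) ∧
      ∀ (m : ℕ) (a : Fin m → Fin 4 → K), IsFreeArrangement a →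
        ∀ (h : Fin m) (J : Set (CoordRing (a h))), IsImage a F J →
          ¬ Corresponds J (idealArr B) := by
  obtain ⟨c, h0, h1⟩ := hK
  exact ⟨lines c, finrank_lines c, cm_lines h0 h1,
    fun m a hfree h J hJ => not_image h0 h1 a F hfree J hJ⟩

end Pool.Agent.Results.MP_97ec3f_ag.FreeResidueIdeals
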